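import Pool.Agent.CollK.H

/-!
The minimum length `μ_k(t)` of a `k`-collapsing word over `t` letters is at most
`C_k * t ^ (2k-1)`, for every `k ≥ 1`.
-/

namespace Pool.Agent.Results.MP_476a03_lc.LinearExponent

open Pool.Agent.Collapse

/-- For every `k ≥ 1` there is a constant `C` such that for every `t ≥ 1` there are `k`-collapsing
words over `t` letters and `μ_k(t) ≤ C t^(2k-1)`. -/
theorem result : ∀ k : ℕ, 1 ≤ k → ∃ C : ℕ, ∀ t : ℕ, 1 ≤ t →
    (∃ w : List (Fin t), IsCollapsing k w) ∧ mu k t ≤ C * t ^ (2 * k - 1) :=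
  fun k hk => Pool.Agent.CollK.mu_bound k hk

end Pool.Agent.Results.MP_476a03_lc.LinearExponent
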