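import Pool.Agent.Collapse.Upper
import Pool.Agent.Collapse.Lower

/-!
The minimum length `μ_2(t)` of a 2-collapsing word over `t` letters satisfies
`2 t² ≤ μ_2(t) ≤ C t² log² t`.
-/

namespace Pool.Agent.Results.MP_476a03_lc.MuTwoNearQuadratic

open Pool.Agent.Collapse

/-- There is an absolute constant `C` such that for every `t ≥ 1` 2-collapsing words over `t`
letters exist and `2 t² ≤ μ_2(t) ≤ C t² (log₂ t + 1)²`. -/
theorem result : ∃ C : ℕ, ∀ t : ℕ, 1 ≤ t →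
    (∃ w : List (Fin t), IsCollapsing 2 w) ∧
    2 * t ^ 2 ≤ mu 2 t ∧ mu 2 t ≤ C * t ^ 2 * (Nat.log 2 t + 1) ^ 2 := by
  refine ⟨40000000, fun t ht => ?_⟩
  obtain ⟨w, hw, hlen⟩ := exists_collapsing_two t ht
  have hne : {n | ∃ w : List (Fin t), IsCollapsing 2 w ∧ w.length = n}.Nonempty :=
    ⟨w.length, w, hw, rfl⟩
  refine ⟨⟨w, hw⟩, ?_, ?_⟩
  · obtain ⟨w', hw', hlen'⟩ := Nat.sInf_mem hne
    unfold mu
    rw [← hlen']
    exact two_mul_sq_le hw'
  · have h1 : mu 2 t ≤ w.length := Nat.sInf_le ⟨w, hw, rfl⟩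
    refine h1.trans (hlen.trans ?_)
    have h2 : Lg t ≤ 2 * (Nat.log 2 t + 1) := by
      unfold Lg
      have h3 : Nat.log 2 (t + 1) ≤ Nat.log 2 (t * 2) := Nat.log_mono_right (by omega)
      rw [Nat.log_mul_base (by norm_num) (by omega)] at h3
      omega
    calc 10000000 * t ^ 2 * (Lg t) ^ 2
        ≤ 10000000 * t ^ 2 * (2 * (Nat.log 2 t + 1)) ^ 2 :=
          Nat.mul_le_mul_left _ (Nat.pow_le_pow_left h2 2)
      _ = 40000000 * t ^ 2 * (Nat.log 2 t + 1) ^ 2 := by ring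

end Pool.Agent.Results.MP_476a03_lc.MuTwoNearQuadratic
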